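import Pool.Agent.MP_e848aa_gt.FreeSet.Pos
import Pool.Agent.MP_e848aa_gt.FreeSet.Neg

/-!
# Perfect images of metalindelof spaces

The statement `every perfect image of a metalindelof space is metalindelof`
is equivalent to the statement that no set has the free set property.
The definitions are in `Pool.Agent.MP_e848aa_gt.Defs` and
`Pool.Agent.MP_e848aa_gt.FreeSet.Defs`.
-/

universe u

open Pool.Agent.MP_e848aa_gt Pool.Agent.MP_e848aa_gt.FreeSet in
/-- Perfect mappings preserve the metalindelof property (for all spaces) if and only
if no set `I` has the free set property: every `F` from the finite subsets of `I` to the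
countable subsets of `I` has an infinite free set. -/
theorem Pool.Agent.Results.MP_e848aa_gt.AnswerPerfectIffNoFreeSet.result :
    (∀ (X Y : Type u) [TopologicalSpace X] [TopologicalSpace Y] (f : X → Y),
        Metalindelof X → PerfectMapping f → Metalindelof Y) ↔
      ∀ I : Type u, ¬ FreeSetProperty I := by
  constructor
  · intro h I hI
    obtain ⟨X, Y, tX, tY, f, hf, hX, hY⟩ := exists_counterexample hI
    exact hY (@h X Y tX tY f hX hf)
  · intro h X Y _ _ f hX hf
    exact metalindelof_image hX hf h
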