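import Pool.Agent.MP_e848aa_gt.Closed.Boundary

/-! Closed mappings with fibres of small Lindelof number, and the free set property. -/

open Set Topology Cardinal

namespace Pool.Agent.Results.MP_e848aa_gt.ClosedIffNoFreeSet

open Pool.Agent.MP_e848aa_gt

universe u

/-- For every set `I`: the set `I` does not have the free set property if and only if, for every
closed mapping `f : X → Y` of a metalindelof space, every open cover of `Y` indexed by `I` has a
point-countable open refinement as soon as for some natural number `n` every point `y` of `Y` is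
of one of the following kinds: the part of the fibre of `y` outside its interior has Lindelof
number at most aleph `n`; `y` lies in a fixed set with at most aleph omega points; `y` lies in the
union of a fixed subfamily of the cover with fewer than aleph omega members. -/
theorem result (I : Type u) :
    ¬ FreeSetProperty I ↔
      ∀ (X Y : Type u) [TopologicalSpace X] [TopologicalSpace Y] (f : X → Y),
        Metalindelof X → ClosedMapping f →
          ∀ U : I → Set Y, (∀ i, IsOpen (U i)) → (⋃ i, U i) = Set.univ →
            ∀ (n : ℕ) (A : Set Y) (J : Set I), #A ≤ ℵ_ Ordinal.omega0 →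
              #J < ℵ_ Ordinal.omega0 →
              (∀ y : Y, LindelofNumberLe (f ⁻¹' {y} \ interior (f ⁻¹' {y}))
                (ℵ_ (n : Ordinal.{u})) ∨ y ∈ A ∨ ∃ i ∈ J, y ∈ U i) →
                HasPointCountableOpenRefinement (range U) := by
  constructor
  · intro hI X Y _ _ f hX hf U hU hUc n A J hA hJ hpt
    have hcov : OpenCover (range U) := ⟨by rintro _ ⟨i, rfl⟩; exact hU i, by
      rw [sUnion_range]; exact hUc⟩
    refine Closed.hasPCR_combined hX hf (range U) hcov A hA (ι := J) hJ (fun i => {U i.1}) ?_ ?_ ?_
      fun H hH hHA => ?_
    · rintro i W rfl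
      exact hU i.1
    · rintro i W rfl
      exact ⟨U i.1, ⟨i.1, rfl⟩, subset_rfl⟩
    · intro i y
      refine (countable_singleton (U i.1)).mono ?_
      rintro V ⟨hV, _⟩
      exact hV
    · refine Closed.coverable_of_boundary hX hf H hH n ?_
        (Closed.hasDCC_of_not_freeSetProperty I hI) U hU ?_
      · intro y hy
        obtain ⟨h1, h2⟩ := hHA y hy
        rcases hpt y with h | h | ⟨i, hi, hyi⟩
        · exact h
        · exact absurd h h1
        · exact absurd ⟨U i, rfl, hyi⟩ (h2 ⟨i, hi⟩)
      · intro y _
        have hy : y ∈ ⋃ i, U i := by rw [hUc]; trivial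
        exact mem_iUnion.mp hy
  · intro h hI
    obtain ⟨U, u1, u2, u3⟩ := Closed.exists_bad_cover hI
    have hf := FreeSet.perfectMapping_proj (Λ := I)
    refine u3 (h (FreeSet.SX I) (FreeSet.SY I) FreeSet.proj FreeSet.metalindelof_SX
      hf.toClosedMapping U u1 u2 0 ∅ ∅ (by simp) ?_ fun y => Or.inl ?_)
    · simpa using (Cardinal.aleph0_pos.trans_le (Cardinal.aleph0_le_aleph Ordinal.omega0))
    · exact Closed.lindelofNumberLe_of_isCompact (hf.isCompact_fibre y) isOpen_interior 0

end Pool.Agent.Results.MP_e848aa_gt.ClosedIffNoFreeSet
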