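import Pool.Agent.MP_e848aa_gt.Dowker.Final

/-! Closed images of metalindelof spaces: reduction to P-spaces, and spaces of small tightness. -/

open Set Topology Cardinal

namespace Pool.Agent.Results.MP_e848aa_gt.ClosedReduction

open Pool.Agent.MP_e848aa_gt

universe u

/-- Part one: four equivalent statements.  (1) No set has the free set property.  (2) Perfect
mappings between first countable spaces preserve the metalindelof property.  (3) Closed mappings
`f : X → Y` preserve the metalindelof property if `X` or `Y` has tightness below aleph omega, if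
`X` or `Y` is countably metacompact, if all points of `Y` are `G_δ`, or if `Y` is Hausdorff and
`X` or `Y` is a k-space.  (4) A closed image `Y` of a metalindelof space is metalindelof if, for
some natural number `n` and some subset `A` with at most aleph omega points, the following closed
subspaces `Z` of `Y` are metalindelof, or have tightness at most aleph `n + 1`, or have closed
refinements of increasing open covers: those which miss `A`, have more than aleph omega points,
are P-spaces, in which the closure of every set with at most aleph `n + 1` points is the union of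
the closures of its points, and over which all boundaries of fibres have Lindelof number greater
than aleph `n`.
Part two: for every natural number `n`, all closed mappings preserve the metalindelof property
(Q2) if and only if no set has the free set property and the closed mappings onto P-spaces `Y`
preserve it, where `Y` has more than aleph omega points, the closure of every set with at most
aleph `n + 1` points of `Y` is the union of the closures of its points, and all fibres have
Lindelof number greater than aleph `n`. -/
theorem result :
    List.TFAE [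
      ∀ I : Type u, ¬ FreeSetProperty I,
      ∀ (X Y : Type u) [TopologicalSpace X] [TopologicalSpace Y] (f : X → Y),
        Metalindelof X → PerfectMapping f → FirstCountableTopology X →
          FirstCountableTopology Y → Metalindelof Y,
      ∀ (X Y : Type u) [TopologicalSpace X] [TopologicalSpace Y] (f : X → Y),
        Metalindelof X → ClosedMapping f →
          ((∃ n : ℕ, TightnessLe X (ℵ_ (n : Ordinal.{u})) ∨ TightnessLe Y (ℵ_ (n : Ordinal.{u}))) ∨
            CountablyMetacompact X ∨ CountablyMetacompact Y ∨ (∀ y : Y, IsGδ {y}) ∨
              (T2Space Y ∧ (KSpace X ∨ KSpace Y))) → Metalindelof Y,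
      ∀ (X Y : Type u) [TopologicalSpace X] [TopologicalSpace Y] (f : X → Y),
        Metalindelof X → ClosedMapping f →
          (∃ (n : ℕ) (A : Set Y), #A ≤ ℵ_ Ordinal.omega0 ∧
            ∀ Z : Set Y, IsClosed Z → Disjoint Z A → ℵ_ Ordinal.omega0 < #Z →
              (∀ z : Z, IsPPoint z) → PointwiseClosures Z (ℵ_ ((n + 1 : ℕ) : Ordinal.{u})) →
              (∀ y ∈ Z, ¬ LindelofNumberLe (f ⁻¹' {y} \ interior (f ⁻¹' {y}))
                (ℵ_ (n : Ordinal.{u}))) →
              Metalindelof Z ∨ TightnessLe Z (ℵ_ ((n + 1 : ℕ) : Ordinal.{u})) ∨
                ClosedShrinkable Z) → Metalindelof Y] ∧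
    ∀ n : ℕ,
      ((∀ (X Y : Type u) [TopologicalSpace X] [TopologicalSpace Y] (f : X → Y),
          Metalindelof X → ClosedMapping f → Metalindelof Y) ↔
        ((∀ I : Type u, ¬ FreeSetProperty I) ∧
          ∀ (X Y : Type u) [TopologicalSpace X] [TopologicalSpace Y] (f : X → Y),
            Metalindelof X → ClosedMapping f → (∀ y : Y, IsPPoint y) →
              ℵ_ Ordinal.omega0 < #Y → PointwiseClosures Y (ℵ_ ((n + 1 : ℕ) : Ordinal.{u})) →
                (∀ y : Y, ¬ LindelofNumberLe (f ⁻¹' {y}) (ℵ_ (n : Ordinal.{u}))) →
                  Metalindelof Y)) := by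
  have h12 : (∀ (X Y : Type u) [TopologicalSpace X] [TopologicalSpace Y] (f : X → Y),
      Metalindelof X → PerfectMapping f → FirstCountableTopology X →
        FirstCountableTopology Y → Metalindelof Y) → ∀ I : Type u, ¬ FreeSetProperty I := by
    intro h I hI
    exact FreeSet.not_metalindelof_SY hI (h (FreeSet.SX I) (FreeSet.SY I) FreeSet.proj
      FreeSet.metalindelof_SX FreeSet.perfectMapping_proj inferInstance inferInstance)
  constructor
  · tfae_have 1 → 4 := by
      intro hI X Y _ _ f hX hf
      rintro ⟨n, A, hA, hZ⟩
      refine Dowker.metalindelof_of_psubspaces hI hX hf n A hA ?_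
      intro Z h1 h2 h3 h4 h5 h6
      rcases hZ Z h1 h2 h3 h4 h5 h6 with h | h | h
      · exact h
      · exact Dowker.metalindelof_pspace hX hf h1 h4 (Or.inr (Or.inl ⟨_, h, h5⟩))
      · exact Dowker.metalindelof_pspace hX hf h1 h4 (Or.inr (Or.inr (Or.inl h)))
    tfae_have 4 → 3 := by
      intro h X Y _ _ f hX hf hcl
      rcases hcl with ⟨n, hn⟩ | hcl | hcl | hcl | ⟨hT2, hcl⟩
      · have hY : TightnessLe Y (ℵ_ (n : Ordinal.{u})) := by
          rcases hn with hn | hn
          · exact Dowker.TightnessLe.image hn hf
          · exact hn
        refine h X Y f hX hf ⟨n, ∅, by simp, fun Z h1 h2 h3 h4 h5 h6 => Or.inr (Or.inl ?_)⟩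
        refine Dowker.TightnessLe.mono (Dowker.TightnessLe.subtype hY Z) ?_
        exact Cardinal.aleph_le_aleph.mpr (by exact_mod_cast Nat.le_succ n)
      · exact h X Y f hX hf ⟨0, ∅, by simp, fun Z h1 h2 h3 h4 h5 h6 => Or.inr (Or.inr
          (Dowker.ClosedShrinkable.subtype (Dowker.closedShrinkable_image hcl hf) h1))⟩
      · exact h X Y f hX hf ⟨0, ∅, by simp, fun Z h1 h2 h3 h4 h5 h6 => Or.inr (Or.inr
          (Dowker.ClosedShrinkable.subtype (Dowker.closedShrinkable_of_cm hcl) h1))⟩
      · exact h X Y f hX hf ⟨0, ∅, by simp, fun Z h1 h2 h3 h4 h5 h6 => Or.inl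
          (Dowker.metalindelof_pspace hX hf h1 h4 (Or.inr (Or.inr (Or.inr (Or.inl hcl)))))⟩
      · have hk : KSpace Y := by
          rcases hcl with hk | hk
          · exact Dowker.KSpace.image hk hf
          · exact hk
        exact h X Y f hX hf ⟨0, ∅, by simp, fun Z h1 h2 h3 h4 h5 h6 => Or.inl
          (Dowker.metalindelof_pspace hX hf h1 h4
            (Or.inr (Or.inr (Or.inr (Or.inr (Or.inl ⟨hT2, hk⟩))))))⟩
    tfae_have 3 → 2 := by
      intro h X Y _ _ f hX hf _ hY
      refine h X Y f hX hf.toClosedMapping (Or.inl ⟨0, Or.inr ?_⟩)
      rw [Nat.cast_zero, Cardinal.aleph_zero]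
      exact Dowker.tightnessLe_of_firstCountable
    tfae_have 2 → 1 := h12
    tfae_finish
  · intro n
    constructor
    · intro h
      refine ⟨h12 fun X Y _ _ f hX hf _ _ => h X Y f hX hf.toClosedMapping, ?_⟩
      intro X Y _ _ f hX hf _ _ _ _
      exact h X Y f hX hf
    · rintro ⟨hI, hQ⟩ X Y _ _ f hX hf
      refine Dowker.metalindelof_of_psubspaces hI hX hf n ∅ (by simp) ?_
      intro Z h1 _ h3 h4 h5 h6
      refine hQ (f ⁻¹' Z) Z (Z.restrictPreimage f)
        (Closed.metalindelof_closed_subspace hX _ (h1.preimage hf.continuous))
        (Closed.closedMapping_restrict hf Z) h4 h3 h5 ?_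
      intro z hz
      refine h6 z.1 z.2 (Dowker.lindelofNumberLe_boundary
        (Dowker.lindelofNumberLe_preimage (K := f ⁻¹' Z) ?_ ?_))
      · intro x hx
        have hx' : f x = z.1 := hx
        rw [mem_preimage, hx']
        exact z.2
      · have h7 : (Subtype.val ⁻¹' (f ⁻¹' {z.1}) : Set (f ⁻¹' Z)) =
            (Z.restrictPreimage f) ⁻¹' {z} := by
          ext x
          constructor
          · intro hx
            exact Subtype.ext hx
          · intro hx
            exact congrArg Subtype.val hx
        rw [h7]
        exact hz

end Pool.Agent.Results.MP_e848aa_gt.ClosedReduction
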