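import Pool.Agent.MP_e848aa_gt.Closed.Card

/-! Closed images of metalindelof spaces: small covers and small ranges. -/

open Set Topology Cardinal

namespace Pool.Agent.Results.MP_e848aa_gt.SmallCoversOrRange

open Pool.Agent.MP_e848aa_gt

universe u v w

/-- Let `f : X → Y` be a closed mapping of a metalindelof space and `𝒰` an open cover of `Y`.
Suppose that there are a subset `A` of `Y` with at most aleph omega points and fewer than aleph
omega point-countable families of open sets which refine `𝒰`, such that every point of `Y` outside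
`A` lies in a member of one of the families.  Then `𝒰` has a point-countable open refinement.
In particular this holds if `𝒰` has fewer than aleph omega members, and `Y` is metalindelof if it
has at most aleph omega points.  No condition on the fibres or on the points of `Y` is needed. -/
theorem result {X : Type u} {Y : Type v} [TopologicalSpace X] [TopologicalSpace Y]
    (hX : Metalindelof X) (f : X → Y) (hf : ClosedMapping f)
    (𝒰 : Set (Set Y)) (h𝒰 : OpenCover 𝒰) (A : Set Y) (hA : #A ≤ ℵ_ Ordinal.omega0)
    {ι : Type w} (hι : #ι < ℵ_ Ordinal.omega0) (𝒲 : ι → Set (Set Y))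
    (ho : ∀ i, ∀ W ∈ 𝒲 i, IsOpen W) (hr : ∀ i, Refines (𝒲 i) 𝒰)
    (hp : ∀ i, PointCountable (𝒲 i)) (hc : ∀ y : Y, y ∈ A ∨ ∃ i, y ∈ ⋃₀ 𝒲 i) :
    HasPointCountableOpenRefinement 𝒰 := by
  refine Closed.hasPCR_combined hX hf 𝒰 h𝒰 A hA hι 𝒲 ho hr hp fun H _ hH => ?_
  refine ⟨∅, by simp, fun V hV => by simp at hV, fun y => by simp, fun y hy => ?_⟩
  obtain ⟨h1, h2⟩ := hH y hy
  rcases hc y with h | ⟨i, h⟩
  · exact absurd h h1
  · exact absurd h (h2 i)

end Pool.Agent.Results.MP_e848aa_gt.SmallCoversOrRange
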